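import Mathlib
import Pool.Agent.U239.BL.Stm
import Pool.Agent.U239.BI.Fin

/-! # Project BL (helper239), package BPT, by helper200: few bad points -/

set_option autoImplicit false

namespace Pool.Agent.U200.BL

open scoped Classical
open NumberField Module Matrix
open Pool.Agent.N852.GR
open Pool.Agent.U239.BL

variable {F : Type} [Field F] [NumberField F]

theorem co_dr {n k : ℕ} (A : Fin k → Matrix (Fin n) (Fin n) (𝓞 F)) (y : Fin n → 𝓞 F) (lam : F)
    (v : Fin n → F) (h : co y = lam • v) (i : Fin k) :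
    co (dr A y i) = lam • (cm A i *ᵥ v) := by
  rw [← Matrix.mulVec_smul, ← h]
  funext j
  show algebraMap (𝓞 F) F (∑ l, A i j l * y l) =
    ∑ l, algebraMap (𝓞 F) F (A i j l) * algebraMap (𝓞 F) F (y l)
  rw [map_sum]
  refine Finset.sum_congr rfl fun l _ => ?_
  rw [map_mul]

theorem not_gd {n k : ℕ} (A : Fin k → Matrix (Fin n) (Fin n) (𝓞 F)) (y : Fin n → 𝓞 F) (lam : F)
    (hl : lam ≠ 0) (v : Fin n → F) (h : co y = lam • v)
    (hb : ¬ LinearIndependent F (fun i => cm A i *ᵥ v)) : ¬ Gd A y := by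
  intro hg
  apply hb
  unfold Gd at hg
  have h1 := hg.units_smul (fun _ => Units.mk0 lam⁻¹ (inv_ne_zero hl))
  have h2 : (fun i => cm A i *ᵥ v) =
      ((fun _ => Units.mk0 lam⁻¹ (inv_ne_zero hl) : Fin k → Fˣ) • fun i => co (dr A y i)) := by
    funext i
    show _ = (Units.mk0 lam⁻¹ (inv_ne_zero hl)) • co (dr A y i)
    rw [co_dr A y lam v h, Units.smul_mk0, smul_smul, inv_mul_cancel₀ hl, one_smul]
  rw [h2]
  exact h1

omit [NumberField F] in
theorem rk_lt {n k : ℕ} (A : Fin k → Matrix (Fin n) (Fin n) (𝓞 F)) (y : Fin n → 𝓞 F)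
    (h : ¬ Gd A y) : rk (dr A y) < k := by
  unfold Gd at h
  rw [linearIndependent_iff_card_le_finrank_span, Fintype.card_fin, not_le] at h
  exact h

theorem t_BPT (F : Type) [Field F] [NumberField F] : S_BPT F := by
  intro hBad n k A hk hkn hRC
  obtain ⟨C, hC, hB⟩ := hBad n k (n - k + 1) A hRC (by omega)
  set d := finrank ℚ F with hd
  have hd0 : 0 < d := finrank_pos
  set c₀ : ℝ := √|(discr F : ℝ)| + 1 with hc₀
  have hc1 : 1 ≤ c₀ := by
    have := Real.sqrt_nonneg |(discr F : ℝ)|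
    linarith
  have hex : ∀ Q : Projectivization F (Fin n → F), ∃ (lam : F) (y : Fin n → 𝓞 F), lam ≠ 0 ∧
    co y = lam • Q.rep ∧ ‖io y‖ ^ d ≤ c₀ * Q.mulHeight := fun Q => Pool.Agent.U239.BI.rep Q
  choose lam y hl hy hH using hex
  refine ⟨C * c₀ ^ (2 * k - 2), ?_, ?_⟩
  · have : (1 : ℝ) ≤ c₀ ^ (2 * k - 2) := one_le_pow₀ hc1
    nlinarith
  intro T hT
  set S : Set (Projectivization F (Fin n → F)) := {Q : Projectivization F (Fin n → F) |
      ¬ LinearIndependent F (fun i => cm A i *ᵥ Q.rep) ∧ Q.mulHeight ≤ T} with hS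
  have hcT : 1 ≤ c₀ * T := by nlinarith
  obtain ⟨μ, hμ1, hμd⟩ : ∃ μ : ℝ, 1 ≤ μ ∧ μ ^ d = c₀ * T := by
    refine ⟨(c₀ * T) ^ (1 / (d : ℝ)), Real.one_le_rpow hcT (by positivity), ?_⟩
    rw [← Real.rpow_natCast, ← Real.rpow_mul (by linarith), one_div,
      inv_mul_cancel₀ (by exact_mod_cast hd0.ne'), Real.rpow_one]
  have hfin : ∀ W : Finset (Projectivization F (Fin n → F)), (W : Set _) ⊆ S →
      (W.card : ℝ) ≤ C * c₀ ^ (2 * k - 2) * T ^ (2 * k - 2) := by
    intro W hW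
    have hinj : Set.InjOn y (W : Set (Projectivization F (Fin n → F))) := by
      intro P _ P' _ h
      exact Pool.Agent.U239.BI.point_eq (hl P) (hl P') (hy P) (by rw [h]; exact hy P')
    have h1 : ∀ b ∈ W.image y, ‖io b‖ ≤ μ ∧ ¬ Gd A b := by
      intro b hb
      rw [Finset.mem_image] at hb
      obtain ⟨Q, hQ, rfl⟩ := hb
      obtain ⟨g1, g2⟩ := hW hQ
      refine ⟨?_, not_gd A _ _ (hl Q) _ (hy Q) g1⟩
      have h2 : ‖io (y Q)‖ ^ d ≤ μ ^ d := by
        rw [hμd]
        refine (hH Q).trans ?_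
        exact mul_le_mul_of_nonneg_left g2 (by linarith)
      exact le_of_pow_le_pow_left₀ hd0.ne' (by linarith) h2
    have h2 := hB μ hμ1 (W.image y) h1
    have h3 : ((W.image y).card : ℝ) * μ ^ d ≤
        ∑ b ∈ W.image y, μ ^ (d * (k - rk (dr A b))) := by
      rw [← nsmul_eq_mul]
      refine Finset.card_nsmul_le_sum _ _ _ fun b hb => ?_
      have h4 := rk_lt A b (h1 b hb).2
      refine pow_le_pow_right₀ hμ1 ?_
      exact Nat.le_mul_of_pos_right _ (by omega)
    rw [Finset.card_image_of_injOn hinj] at h3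
    have h5 : μ ^ (d * (k + n - (n - k + 1))) = (c₀ * T) ^ (2 * k - 2) * μ ^ d := by
      rw [← hμd, ← pow_mul, ← pow_add]
      congr 1
      have : k + n - (n - k + 1) = 2 * k - 2 + 1 := by omega
      rw [this]
      ring
    have h6 := h3.trans h2
    rw [h5, ← mul_assoc] at h6
    have h7 := le_of_mul_le_mul_right h6 (by rw [hμd]; linarith)
    rw [mul_pow] at h7
    linarith
  have hSf : S.Finite := by
    by_contra hinf
    obtain ⟨W, hW, hc⟩ := Set.Infinite.exists_subset_card_eq hinf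
      (⌊C * c₀ ^ (2 * k - 2) * T ^ (2 * k - 2)⌋₊ + 1)
    have h1 := hfin W hW
    rw [hc] at h1
    push_cast at h1
    have h2 := Nat.lt_floor_add_one (C * c₀ ^ (2 * k - 2) * T ^ (2 * k - 2))
    linarith
  refine ⟨hSf, ?_⟩
  rw [Set.ncard_eq_toFinset_card S hSf]
  exact hfin _ (by rw [Set.Finite.coe_toFinset])

end Pool.Agent.U200.BL
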